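import Pool.Agent.H14R3.KK.Defs

/-! Task CHIA of project KK (MP_d47e08_pr). -/

set_option autoImplicit false
open MeasureTheory ProbabilityTheory Filter Topology

namespace KK14

namespace CHIAx

theorem mgf_gauss (t : ℝ) : ∫ g, Real.exp (t * g) ∂(gaussianReal 0 1) = Real.exp (t ^ 2 / 2) := by
  have h := congrFun (mgf_id_gaussianReal (μ := 0) (v := 1)) t
  unfold mgf at h
  simp only [id_eq, zero_mul, zero_add, NNReal.coe_one, one_mul] at h
  exact h

theorem sum_exp (n : ℕ) (c : ℝ) :
    ∑ x : Fin n → Bool, Real.exp (c * ∑ i, (if x i then (1 : ℝ) else -1)) =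
      (2 * Real.cosh c) ^ n := by
  have h1 : 2 * Real.cosh c = ∑ b : Bool, Real.exp (c * (if b then (1 : ℝ) else -1)) := by
    rw [Fintype.sum_bool, Real.cosh_eq]
    simp
    ring
  rw [h1, Fintype.sum_pow]
  refine Finset.sum_congr rfl fun x _ => ?_
  rw [← Real.exp_sum, Finset.mul_sum]

theorem gauss_int (b : ℝ) (hb : b < 1) :
    ∫ g, Real.exp (b * g ^ 2 / 2) ∂(gaussianReal 0 1) = 1 / √(1 - b) := by
  rw [integral_gaussianReal_eq_integral_smul one_ne_zero]
  have h1 : ∀ x : ℝ, gaussianPDFReal 0 1 x • Real.exp (b * x ^ 2 / 2) =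
      (√(2 * Real.pi))⁻¹ * Real.exp (-((1 - b) / 2) * x ^ 2) := by
    intro x
    unfold gaussianPDFReal
    rw [smul_eq_mul, mul_assoc, ← Real.exp_add]
    simp only [NNReal.coe_one, mul_one, sub_zero]
    congr 2
    ring
  simp_rw [h1]
  rw [integral_const_mul, integral_gaussian]
  have hb' : 0 < 1 - b := by linarith
  have hpi := Real.pi_pos
  rw [show Real.pi / ((1 - b) / 2) = (2 * Real.pi) / (1 - b) by field_simp,
    Real.sqrt_div (by positivity)]
  have h2 : √(2 * Real.pi) ≠ 0 := by positivity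
  field_simp

end CHIAx

open CHIAx

theorem CHIA (n : ℕ) (a : ℝ) (ha : 0 ≤ a) (h : n * a < 1) :
    (1 / 2 ^ n) * ∑ x : Fin n → Bool,
      Real.exp (a * (∑ i, (if x i then (1 : ℝ) else -1)) ^ 2 / 2) ≤ 1 / √(1 - n * a) := by
  have h1 : ∀ x : Fin n → Bool, Real.exp (a * (∑ i, (if x i then (1 : ℝ) else -1)) ^ 2 / 2) =
      ∫ g, Real.exp ((√a * ∑ i, (if x i then (1 : ℝ) else -1)) * g) ∂(gaussianReal 0 1) := by
    intro x
    rw [mgf_gauss, mul_pow, Real.sq_sqrt ha]
  have h2 : (1 / 2 ^ n) * ∑ x : Fin n → Bool,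
      Real.exp (a * (∑ i, (if x i then (1 : ℝ) else -1)) ^ 2 / 2) =
      ∫ g, Real.cosh (√a * g) ^ n ∂(gaussianReal 0 1) := by
    rw [Finset.sum_congr rfl fun x _ => h1 x, ← integral_finset_sum, ← integral_const_mul]
    · refine integral_congr_ae (Filter.Eventually.of_forall fun g => ?_)
      simp only
      have h3 : ∀ x : Fin n → Bool,
          Real.exp ((√a * ∑ i, (if x i then (1 : ℝ) else -1)) * g) =
            Real.exp ((√a * g) * ∑ i, (if x i then (1 : ℝ) else -1)) := by
        intro x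
        congr 1
        ring
      rw [Finset.sum_congr rfl fun x _ => h3 x, sum_exp, mul_pow]
      field_simp
    · intro x _
      exact integrable_exp_mul_gaussianReal _
  rw [h2, ← gauss_int (n * a) h]
  refine integral_mono_of_nonneg (Filter.Eventually.of_forall fun g => ?_) ?_
    (Filter.Eventually.of_forall fun g => ?_)
  · exact pow_nonneg (Real.cosh_pos _).le n
  · refine Integrable.of_integral_ne_zero ?_
    rw [gauss_int (n * a) h]
    have : 0 < 1 - n * a := by linarith
    positivity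
  · simp only
    have h4 : Real.cosh (√a * g) ≤ Real.exp ((√a * g) ^ 2 / 2) := Real.cosh_le_exp_half_sq _
    calc Real.cosh (√a * g) ^ n ≤ Real.exp ((√a * g) ^ 2 / 2) ^ n :=
          pow_le_pow_left₀ (Real.cosh_pos _).le h4 n
      _ = Real.exp (n * a * g ^ 2 / 2) := by
          rw [← Real.exp_nat_mul, mul_pow, Real.sq_sqrt ha]
          congr 1
          ring

end KK14
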